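import Pool.Agent.REV.StmtsC

set_option autoImplicit false

/-!
# Squad REV, row CYR: cylinders are invariant under the isometries which fix the axis
-/

open scoped RealInnerProductSpace

namespace Pool.Agent.REV.H11

open Pool.Agent.REV

theorem cyr_mem {E : Type} [NormedAddCommGroup E] [InnerProductSpace ℝ E] (e : E) (H R : ℝ)
    (T : E ≃ₗᵢ[ℝ] E) (hT : T e = e) (y : E) (hy : y ∈ cyl e H R) : T y ∈ cyl e H R := by
  have h1 : ⟪e, T y⟫ = ⟪e, y⟫ := by
    have h := T.inner_map_map e y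
    rw [hT] at h
    exact h
  refine ⟨?_, ?_⟩
  · show |⟪e, T y⟫| ≤ H
    rw [h1]
    exact hy.1
  · show ‖T y - ⟪e, T y⟫ • e‖ ≤ R
    rw [h1]
    have h2 : T y - ⟪e, y⟫ • e = T (y - ⟪e, y⟫ • e) := by
      rw [map_sub, map_smul, hT]
    rw [h2, T.norm_map]
    exact hy.2

/-- **CYR.** -/
theorem cyr : CyrStmt := by
  intro E _ _ x e H R _ T hT
  rw [Set.image_image]
  ext z
  constructor
  · rintro ⟨y, hy, rfl⟩
    refine ⟨T y, cyr_mem e H R T hT y hy, ?_⟩
    show x + T y = x + T (x + y - x)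
    rw [add_sub_cancel_left]
  · rintro ⟨y, hy, rfl⟩
    have hs : T.symm e = e := by
      rw [LinearIsometryEquiv.symm_apply_eq, hT]
    refine ⟨T.symm y, cyr_mem e H R T.symm hs y hy, ?_⟩
    show x + T (x + T.symm y - x) = x + y
    rw [add_sub_cancel_left, T.apply_symm_apply]

end Pool.Agent.REV.H11
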