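import Pool.Agent.REV.StmtsG3

set_option autoImplicit false

/-! Row G2Z of squad REV (MP_bbfd73_gt): the interface G2Stmt. -/

open MeasureTheory Module Set Filter
open scoped RealInnerProductSpace Pointwise Topology ENNReal

namespace Pool.Agent.REV.H11

open Pool.Agent.BPH Pool.Agent.REV

/-- the profile restricted to `[0,1]` -/
noncomputable def cut (f : ℝ → ℝ) (t : ℝ) : ℝ := f (min |t| 1)

theorem cut_eq (f : ℝ → ℝ) {t : ℝ} (h0 : 0 ≤ t) (h1 : t ≤ 1) : cut f t = f t := by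
  unfold cut
  rw [abs_of_nonneg h0, min_eq_left h1]

theorem zon_cut {E : Type} [NormedAddCommGroup E] [InnerProductSpace ℝ E] (e : E) (f : ℝ → ℝ) :
    zon e (cut f) = zon e f := by
  funext x
  unfold zon
  exact cut_eq f (le_min (abs_nonneg _) zero_le_one) (min_le_right _ _)

theorem RA_cut (n : ℕ) (f : ℝ → ℝ) {c : ℝ} (h0 : 0 ≤ c) (h1 : c ≤ 1) :
    RA n (cut f) c = RA n f c := by
  unfold RA
  apply intervalIntegral.integral_congr
  intro r hr
  rw [uIcc_of_le zero_le_one] at hr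
  simp only
  rw [cut_eq f (mul_nonneg hr.1 h0) (by nlinarith [hr.1, hr.2])]

theorem RB_cut (n : ℕ) (f : ℝ → ℝ) {c : ℝ} (h0 : 0 ≤ c) (h1 : c ≤ 1) :
    RB n (cut f) c = RB n f c := by
  unfold RB
  apply intervalIntegral.integral_congr
  intro r hr
  rw [uIcc_of_le zero_le_one] at hr
  simp only
  rw [cut_eq f (mul_nonneg hr.1 h0) (by nlinarith [hr.1, hr.2])]

theorem TT_cut (n i : ℕ) (c a b z : ℝ) (f : ℝ → ℝ) (t : ℝ) :
    c / z * TT n i a b (cut f) t = z⁻¹ * TT n i (c * a) (c * b) f t := by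
  have h0 : 0 ≤ Real.sqrt (1 - t ^ 2) := Real.sqrt_nonneg _
  have h1 : Real.sqrt (1 - t ^ 2) ≤ 1 := by
    have h2 : Real.sqrt (1 - t ^ 2) ≤ Real.sqrt 1 :=
      Real.sqrt_le_sqrt (by nlinarith [sq_nonneg t])
    rwa [Real.sqrt_one] at h2
  unfold TT
  rw [RA_cut n f h0 h1, RB_cut n f h0 h1]
  ring

theorem prf_cut {E : Type} [NormedAddCommGroup E] [InnerProductSpace ℝ E] [FiniteDimensional ℝ E]
    [MeasurableSpace E] [BorelSpace E] (e : E) (he : ‖e‖ = 1) (f : ℝ → ℝ) (h : Dens (zon e f)) :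
    Prf (cut f) := by
  have key : ∀ t : ℝ, cut f t = zon e f (t • e) := by
    intro t
    unfold cut zon
    rw [inner_smul_right, real_inner_self_eq_norm_sq, he]
    norm_num
  refine ⟨?_, fun t => ?_, ?_⟩
  · have h1 : cut f = fun t => zon e f (t • e) := funext key
    rw [h1]
    exact h.meas.comp (by fun_prop)
  · rw [key]
    exact h.nonneg _
  · obtain ⟨C, hC⟩ := h.bdd
    exact ⟨C, fun t => by rw [key]; exact hC _⟩

theorem g2z (zst : ZstStmt) (cpo : CpoStmt) : G2zStmt := by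
  intro E _ _ _ _ _ i hi1 hi2 h4
  obtain ⟨c, hc, H⟩ := zst E i h4 hi1 hi2
  obtain ⟨p1, p2, p3, -⟩ := cpo (finrank ℝ E) i h4 hi1 hi2
  refine ⟨c * C1 (finrank ℝ E) i, c * C2 (finrank ℝ E) i, mul_nonneg hc.le p2, mul_pos hc p3,
    fun h => mul_pos hc (p1 h), ?_⟩
  intro e he f hf
  have hf' : Dens (zon e (cut f)) := by
    rw [zon_cut]
    exact hf
  obtain ⟨-, -, H2, H3⟩ := H e (cut f) he (prf_cut e he f hf) hf'
  have hfun : (fun t => c / ZZ i (zon e (cut f)) *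
      TT (finrank ℝ E) i (C1 (finrank ℝ E) i) (C2 (finrank ℝ E) i) (cut f) t) =
      fun t => (ZZ i (zon e f))⁻¹ * TT (finrank ℝ E) i (c * C1 (finrank ℝ E) i)
        (c * C2 (finrank ℝ E) i) f t := by
    funext t
    rw [zon_cut]
    exact TT_cut _ _ _ _ _ _ _ _
  rw [hfun] at H2 H3
  rw [zon_cut] at H3
  exact ⟨H2, H3⟩

end Pool.Agent.REV.H11
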