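import Pool.Agent.REV.StmtsV3

set_option autoImplicit false

/-!
# Squad REV, row GA3: gain of regularity for the Abel transform
-/

open Set MeasureTheory Filter
open scoped Topology

namespace Pool.Agent.REV.H11

open Pool.Agent.REV

theorem ga3_rp (x : ℝ) (hx : 0 < x) : x ^ (-(1 / 2) : ℝ) = (Real.sqrt x)⁻¹ := by
  rw [Real.rpow_neg hx.le, Real.sqrt_eq_rpow]

theorem ga3_le_one (x : ℝ) (hx : 1 ≤ x) : x ^ (-(1 / 2) : ℝ) ≤ 1 :=
  Real.rpow_le_one_of_one_le_of_nonpos hx (by norm_num)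

/-- The kernel bound. -/
theorem ga3_ker (u h : ℝ) (hh : 0 < h) (hu : 2 * h ≤ u) :
    (u - h) ^ (-(1 / 2) : ℝ) - u ^ (-(1 / 2) : ℝ) ≤ h * u ^ (-(3 / 2) : ℝ) := by
  have hu0 : 0 < u := by linarith
  have huh : 0 < u - h := by linarith
  rw [ga3_rp _ huh, ga3_rp _ hu0]
  have e3 : u ^ (-(3 / 2) : ℝ) = ((Real.sqrt u) ^ 3)⁻¹ := by
    rw [Real.rpow_neg hu0.le, Real.sqrt_eq_rpow, ← Real.rpow_natCast, ← Real.rpow_mul hu0.le]
    norm_num
  rw [e3]
  set a := Real.sqrt (u - h) with ha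
  set b := Real.sqrt u with hb
  have ha0 : 0 < a := Real.sqrt_pos.2 huh
  have hb0 : 0 < b := Real.sqrt_pos.2 hu0
  have ha2 : a ^ 2 = u - h := Real.sq_sqrt huh.le
  have hb2 : b ^ 2 = u := Real.sq_sqrt hu0.le
  have hab : b / 2 ≤ a := by
    apply le_of_sq_le_sq _ ha0.le
    rw [div_pow, ha2, hb2]
    linarith
  have hkey : b ^ 2 ≤ a ^ 2 + a * b := by nlinarith
  have e1 : a⁻¹ - b⁻¹ = h / (a * b * (a + b)) := by
    have e2 : h = (b - a) * (a + b) := by
      have : (b - a) * (a + b) = b ^ 2 - a ^ 2 := by ring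
      rw [this, ha2, hb2]
      ring
    have hab0 : a + b ≠ 0 := by positivity
    rw [e2]
    field_simp
  rw [e1, ← div_eq_mul_inv]
  apply div_le_div_of_nonneg_left hh.le (by positivity)
  calc b ^ 3 = b * b ^ 2 := by ring
    _ ≤ b * (a ^ 2 + a * b) := mul_le_mul_of_nonneg_left hkey hb0.le
    _ = a * b * (a + b) := by ring

/-- **GA3.** -/
theorem ga3 : Ga3Stmt := by
  intro κ K1 K2 α A Ψ hκ hK1 hK2 hα hAb hH
  have hα0 : 0 ≤ α := by rcases hα with rfl | rfl <;> norm_num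
  have hα1 : α ≤ 3 / 4 := by rcases hα with rfl | rfl <;> norm_num
  refine ⟨κ * (10 * K2 + 2 * K1), by positivity, ?_⟩
  intro Q h hQ hh hh1
  set w : ℝ := min 1 Q⁻¹ with hw
  have hw0 : 0 ≤ w := le_min zero_le_one (inv_nonneg.2 hQ.le)
  have hwm : ∀ S : ℝ, Q ≤ S → min 1 S⁻¹ ≤ w := by
    intro S hS
    exact min_le_min le_rfl (inv_anti₀ hQ hS)
  set φ : ℝ → ℝ := fun τ => Ψ (Q + τ) with hφ
  have hφa : ∀ a b : ℝ, 0 ≤ a → a ≤ b → φ b ≤ φ a := by
    intro a b ha hab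
    exact hAb.anti (show 0 < Q + a by linarith) (show 0 < Q + b by linarith) (by linarith)
  have hφ0 : ∀ a : ℝ, 0 ≤ a → 0 ≤ φ a := fun a ha => hAb.nonneg _ (by linarith)
  have hφK : ∀ a : ℝ, 0 ≤ a → φ a ≤ K1 * w := by
    intro a ha
    exact (hAb.bdd _ (by linarith)).trans
      (mul_le_mul_of_nonneg_left (hwm _ (by linarith)) hK1)
  have hφd : ∀ a b : ℝ, 0 ≤ a → a ≤ b → φ a - φ b ≤ K2 * (b - a) ^ α * w := by
    intro a b ha hab
    have h1 := hH (Q + a) (Q + b) (by linarith) (by linarith)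
    have e : Q + b - (Q + a) = b - a := by ring
    rw [e] at h1
    refine h1.trans (mul_le_mul_of_nonneg_left (hwm _ (by linarith)) ?_)
    exact mul_nonneg hK2 (Real.rpow_nonneg (by linarith) _)
  -- integrability
  have hφI : ∀ a b : ℝ, 0 ≤ a → a ≤ b → IntervalIntegrable φ volume a b := by
    intro a b ha hab
    apply AntitoneOn.intervalIntegrable
    intro x hx y hy hxy
    rw [uIcc_of_le hab] at hx hy
    exact hφa x y (ha.trans hx.1) hxy
  have hI1 : IntegrableOn (fun τ : ℝ => τ ^ (-(1 / 2) : ℝ) * φ τ) (Ioi 0) := hAb.integ Q hQ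
  have hI2 : IntegrableOn (fun τ : ℝ => τ ^ (-(1 / 2) : ℝ) * φ (τ + h)) (Ioi 0) := by
    have h1 := hAb.integ (Q + h) (by linarith)
    have e : (fun τ : ℝ => τ ^ (-(1 / 2) : ℝ) * Ψ (Q + h + τ)) =
        fun τ : ℝ => τ ^ (-(1 / 2) : ℝ) * φ (τ + h) := by
      funext τ
      show τ ^ (-(1 / 2) : ℝ) * Ψ (Q + h + τ) = τ ^ (-(1 / 2) : ℝ) * Ψ (Q + (τ + h))
      rw [show Q + h + τ = Q + (τ + h) by ring]
    rw [e] at h1
    exact h1
  have hID : IntegrableOn (fun τ : ℝ => τ ^ (-(1 / 2) : ℝ) * (φ τ - φ (τ + h))) (Ioi 0) := by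
    have h1 := hI1.sub hI2
    refine h1.congr (Eventually.of_forall fun τ => ?_)
    show τ ^ (-(1 / 2) : ℝ) * φ τ - τ ^ (-(1 / 2) : ℝ) * φ (τ + h) =
      τ ^ (-(1 / 2) : ℝ) * (φ τ - φ (τ + h))
    ring
  have hII : ∀ (F : ℝ → ℝ), IntegrableOn F (Ioi 0) → ∀ a b : ℝ, 0 ≤ a → a ≤ b →
      IntervalIntegrable F volume a b := by
    intro F hF a b ha hab
    rw [intervalIntegrable_iff_integrableOn_Ioc_of_le hab]
    exact hF.mono_set fun x hx => lt_of_le_of_lt ha hx.1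
  -- powers of `h`
  have hp1 : h ^ α * h ^ (1 / 2 : ℝ) ≤ h ^ (α + 1 / 4) := by
    rw [← Real.rpow_add hh]
    exact Real.rpow_le_rpow_of_exponent_ge hh hh1 (by linarith)
  have hp2 : h ≤ h ^ (α + 1 / 4) := by
    calc h = h ^ (1 : ℝ) := (Real.rpow_one h).symm
      _ ≤ h ^ (α + 1 / 4) := Real.rpow_le_rpow_of_exponent_ge hh hh1 (by linarith)
  have hp0 : 0 ≤ h ^ (α + 1 / 4) := Real.rpow_nonneg hh.le _
  -- part (a)
  have ha : (∫ τ in (0 : ℝ)..h, τ ^ (-(1 / 2) : ℝ) * (φ τ - φ (τ + h))) ≤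
      2 * K2 * h ^ (α + 1 / 4) * w := by
    have h1 : (∫ τ in (0 : ℝ)..h, τ ^ (-(1 / 2) : ℝ) * (φ τ - φ (τ + h))) ≤
        ∫ τ in (0 : ℝ)..h, τ ^ (-(1 / 2) : ℝ) * (K2 * h ^ α * w) := by
      refine intervalIntegral.integral_mono_on hh.le (hII _ hID 0 h le_rfl hh.le)
        ((intervalIntegral.intervalIntegrable_rpow' (by norm_num)).mul_const _) ?_
      intro τ hτ
      refine mul_le_mul_of_nonneg_left ?_ (Real.rpow_nonneg hτ.1 _)
      have h2 := hφd τ (τ + h) hτ.1 (by linarith)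
      rwa [add_sub_cancel_left] at h2
    rw [intervalIntegral.integral_mul_const, integral_rpow (Or.inl (by norm_num))] at h1
    have e1 : (-(1 / 2) : ℝ) + 1 = 1 / 2 := by norm_num
    rw [e1, Real.zero_rpow (by norm_num), sub_zero] at h1
    refine h1.trans ?_
    calc h ^ (1 / 2 : ℝ) / (1 / 2) * (K2 * h ^ α * w) =
          2 * K2 * (h ^ α * h ^ (1 / 2 : ℝ)) * w := by ring
      _ ≤ 2 * K2 * h ^ (α + 1 / 4) * w := by
          apply mul_le_mul_of_nonneg_right _ hw0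
          exact mul_le_mul_of_nonneg_left hp1 (by positivity)
  -- part (b)
  have hb : (∫ τ in h..2, τ ^ (-(1 / 2) : ℝ) * (φ τ - φ (τ + h))) ≤
      8 * K2 * h ^ (α + 1 / 4) * w + K1 * h ^ (α + 1 / 4) * w := by
    have h2h : h ≤ 2 * h := by linarith
    have h22 : 2 * h ≤ 2 := by linarith
    have h2h2 : (2 : ℝ) ≤ 2 + h := by linarith
    have hΘ0 : ∀ u : ℝ, h ≤ u → 0 ≤ φ h - φ u := fun u hu =>
      sub_nonneg.2 (hφa h u hh.le hu)
    have hΘI : ∀ a b : ℝ, 0 ≤ a → a ≤ b →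
        IntervalIntegrable (fun u => φ h - φ u) volume a b := fun a b ha hab =>
      intervalIntegrable_const.sub (hφI a b ha hab)
    have hc1 : ∀ a b : ℝ, h ≤ a → a ≤ b →
        IntervalIntegrable (fun u : ℝ => u ^ (-(1 / 2) : ℝ) * (φ h - φ u)) volume a b := by
      intro a b ha hab
      refine (hΘI a b (hh.le.trans ha) hab).continuousOn_mul ?_
      intro u hu
      rw [uIcc_of_le hab] at hu
      have : u ≠ 0 := by
        have := hu.1
        intro h0
        linarith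
      exact (Real.continuousAt_rpow_const u _ (Or.inl this)).continuousWithinAt
    have hc2 : ∀ a b : ℝ, 2 * h ≤ a → a ≤ b →
        IntervalIntegrable (fun u : ℝ => (u - h) ^ (-(1 / 2) : ℝ) * (φ h - φ u)) volume a b := by
      intro a b ha hab
      refine (hΘI a b (by linarith) hab).continuousOn_mul ?_
      refine ContinuousOn.rpow_const (continuousOn_id.sub continuousOn_const) ?_
      intro u hu
      rw [uIcc_of_le hab] at hu
      left
      show u - h ≠ 0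
      have := hu.1
      intro h0
      linarith
    have e1 : (∫ τ in h..2, τ ^ (-(1 / 2) : ℝ) * (φ τ - φ (τ + h))) =
        (∫ u in (2 * h)..(2 + h), (u - h) ^ (-(1 / 2) : ℝ) * (φ h - φ u)) -
          ∫ u in h..2, u ^ (-(1 / 2) : ℝ) * (φ h - φ u) := by
      have e2 := intervalIntegral.integral_comp_add_right (a := h) (b := 2)
        (fun u : ℝ => (u - h) ^ (-(1 / 2) : ℝ) * (φ h - φ u)) h
      have e3 : (fun x : ℝ => (fun u : ℝ => (u - h) ^ (-(1 / 2) : ℝ) * (φ h - φ u)) (x + h)) =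
          fun x => x ^ (-(1 / 2) : ℝ) * (φ h - φ (x + h)) := by
        funext x
        show (x + h - h) ^ (-(1 / 2) : ℝ) * (φ h - φ (x + h)) = _
        rw [add_sub_cancel_right]
      rw [show h + h = 2 * h by ring] at e2
      have e4 : (∫ x in h..2, x ^ (-(1 / 2) : ℝ) * (φ h - φ (x + h))) =
          ∫ u in (2 * h)..(2 + h), (u - h) ^ (-(1 / 2) : ℝ) * (φ h - φ u) := by
        rw [← e2]
        refine intervalIntegral.integral_congr fun x _ => ?_
        exact (congrFun e3 x).symm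
      rw [← e4, ← intervalIntegral.integral_sub]
      · refine intervalIntegral.integral_congr fun x _ => ?_
        show x ^ (-(1 / 2) : ℝ) * (φ x - φ (x + h)) =
          x ^ (-(1 / 2) : ℝ) * (φ h - φ (x + h)) - x ^ (-(1 / 2) : ℝ) * (φ h - φ x)
        ring
      · have h1 := (hc2 (2 * h) (2 + h) le_rfl (by linarith)).comp_add_right h
        have e5 : (2 * h - h : ℝ) = h := by ring
        have e6 : (2 + h - h : ℝ) = 2 := by ring
        rw [e5, e6, e3] at h1
        exact h1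
      · exact hc1 h 2 le_rfl (by linarith)
    have e2 : (∫ u in (2 * h)..(2 + h), (u - h) ^ (-(1 / 2) : ℝ) * (φ h - φ u)) =
        (∫ u in (2 * h)..2, (u - h) ^ (-(1 / 2) : ℝ) * (φ h - φ u)) +
        ∫ u in (2 : ℝ)..(2 + h), (u - h) ^ (-(1 / 2) : ℝ) * (φ h - φ u) :=
      (intervalIntegral.integral_add_adjacent_intervals (hc2 (2 * h) 2 le_rfl h22)
        (hc2 2 (2 + h) h22 h2h2)).symm
    have e3 : (∫ u in h..2, u ^ (-(1 / 2) : ℝ) * (φ h - φ u)) =
        (∫ u in h..(2 * h), u ^ (-(1 / 2) : ℝ) * (φ h - φ u)) +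
        ∫ u in (2 * h)..2, u ^ (-(1 / 2) : ℝ) * (φ h - φ u) :=
      (intervalIntegral.integral_add_adjacent_intervals (hc1 h (2 * h) le_rfl h2h)
        (hc1 (2 * h) 2 h2h h22)).symm
    have h3 : 0 ≤ ∫ u in h..(2 * h), u ^ (-(1 / 2) : ℝ) * (φ h - φ u) :=
      intervalIntegral.integral_nonneg h2h fun u hu =>
        mul_nonneg (Real.rpow_nonneg (hh.le.trans hu.1) _) (hΘ0 u hu.1)
    have h4 : (∫ u in (2 : ℝ)..(2 + h), (u - h) ^ (-(1 / 2) : ℝ) * (φ h - φ u)) ≤
        K1 * h ^ (α + 1 / 4) * w := by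
      have h5 : (∫ u in (2 : ℝ)..(2 + h), (u - h) ^ (-(1 / 2) : ℝ) * (φ h - φ u)) ≤
          ∫ _u in (2 : ℝ)..(2 + h), K1 * w := by
        refine intervalIntegral.integral_mono_on h2h2 (hc2 2 (2 + h) h22 h2h2)
          intervalIntegrable_const ?_
        intro u hu
        have h6 := ga3_le_one (u - h) (by linarith [hu.1])
        have h7 : φ h - φ u ≤ K1 * w := by
          have := hφK h hh.le
          have := hφ0 u (by linarith [hu.1])
          linarith
        calc (u - h) ^ (-(1 / 2) : ℝ) * (φ h - φ u) ≤ 1 * (K1 * w) :=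
              mul_le_mul h6 h7 (hΘ0 u (by linarith [hu.1])) zero_le_one
          _ = K1 * w := one_mul _
      rw [intervalIntegral.integral_const, smul_eq_mul, add_sub_cancel_left] at h5
      refine h5.trans ?_
      calc h * (K1 * w) ≤ h ^ (α + 1 / 4) * (K1 * w) :=
            mul_le_mul_of_nonneg_right hp2 (by positivity)
        _ = K1 * h ^ (α + 1 / 4) * w := by ring
    have h5 : (∫ u in (2 * h)..2, (u - h) ^ (-(1 / 2) : ℝ) * (φ h - φ u)) -
        (∫ u in (2 * h)..2, u ^ (-(1 / 2) : ℝ) * (φ h - φ u)) ≤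
        8 * K2 * h ^ (α + 1 / 4) * w := by
      rw [← intervalIntegral.integral_sub (hc2 (2 * h) 2 le_rfl h22) (hc1 (2 * h) 2 h2h h22)]
      have h6 : (∫ u in (2 * h)..2, ((u - h) ^ (-(1 / 2) : ℝ) * (φ h - φ u) -
          u ^ (-(1 / 2) : ℝ) * (φ h - φ u))) ≤
          ∫ u in (2 * h)..2, u ^ (-(3 / 4) : ℝ) * (K2 * h ^ (α + 1 / 4) * w) := by
        refine intervalIntegral.integral_mono_on h22
          ((hc2 (2 * h) 2 le_rfl h22).sub (hc1 (2 * h) 2 h2h h22))
          ((intervalIntegral.intervalIntegrable_rpow' (by norm_num)).mul_const _) ?_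
        intro u hu
        have hu0 : 0 < u := by linarith [hu.1]
        have h7 := ga3_ker u h hh hu.1
        have h8 : φ h - φ u ≤ K2 * u ^ α * w := by
          refine (hφd h u hh.le (by linarith [hu.1])).trans ?_
          apply mul_le_mul_of_nonneg_right _ hw0
          apply mul_le_mul_of_nonneg_left _ hK2
          exact Real.rpow_le_rpow (by linarith [hu.1]) (by linarith) hα0
        have h9 : 0 ≤ h * u ^ (-(3 / 2) : ℝ) :=
          mul_nonneg hh.le (Real.rpow_nonneg hu0.le _)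
        have h10 : (u - h) ^ (-(1 / 2) : ℝ) * (φ h - φ u) - u ^ (-(1 / 2) : ℝ) * (φ h - φ u) ≤
            h * u ^ (-(3 / 2) : ℝ) * (K2 * u ^ α * w) := by
          rw [← sub_mul]
          exact mul_le_mul h7 h8 (hΘ0 u (by linarith [hu.1])) h9
        refine h10.trans ?_
        have h11 : u ^ (-(3 / 2) : ℝ) * u ^ α = u ^ (α - 3 / 4) * u ^ (-(3 / 4) : ℝ) := by
          rw [← Real.rpow_add hu0, ← Real.rpow_add hu0]
          congr 1
          ring
        have h12 : u ^ (α - 3 / 4) ≤ h ^ (α - 3 / 4) :=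
          Real.rpow_le_rpow_of_nonpos hh (by linarith [hu.1]) (by linarith)
        have h13 : h * h ^ (α - 3 / 4) = h ^ (α + 1 / 4) := by
          have e : α + 1 / 4 = 1 + (α - 3 / 4) := by ring
          rw [e, Real.rpow_add hh, Real.rpow_one]
        calc h * u ^ (-(3 / 2) : ℝ) * (K2 * u ^ α * w) =
              h * (u ^ (-(3 / 2) : ℝ) * u ^ α) * (K2 * w) := by ring
          _ = h * (u ^ (α - 3 / 4) * u ^ (-(3 / 4) : ℝ)) * (K2 * w) := by rw [h11]
          _ = u ^ (α - 3 / 4) * (h * u ^ (-(3 / 4) : ℝ) * (K2 * w)) := by ring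
          _ ≤ h ^ (α - 3 / 4) * (h * u ^ (-(3 / 4) : ℝ) * (K2 * w)) := by
              apply mul_le_mul_of_nonneg_right h12
              have := Real.rpow_nonneg hu0.le (-(3 / 4) : ℝ)
              positivity
          _ = u ^ (-(3 / 4) : ℝ) * (K2 * (h * h ^ (α - 3 / 4)) * w) := by ring
          _ = u ^ (-(3 / 4) : ℝ) * (K2 * h ^ (α + 1 / 4) * w) := by rw [h13]
      refine h6.trans ?_
      rw [intervalIntegral.integral_mul_const, integral_rpow (Or.inl (by norm_num))]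
      have e1 : (-(3 / 4) : ℝ) + 1 = 1 / 4 := by norm_num
      rw [e1]
      have h7 : (2 : ℝ) ^ (1 / 4 : ℝ) ≤ 2 := by
        calc (2 : ℝ) ^ (1 / 4 : ℝ) ≤ 2 ^ (1 : ℝ) :=
              Real.rpow_le_rpow_of_exponent_le (by norm_num) (by norm_num)
          _ = 2 := Real.rpow_one 2
      have h8 : 0 ≤ (2 * h) ^ (1 / 4 : ℝ) := Real.rpow_nonneg (by positivity) _
      have h9 : ((2 : ℝ) ^ (1 / 4 : ℝ) - (2 * h) ^ (1 / 4 : ℝ)) / (1 / 4) ≤ 8 := by
        rw [div_le_iff₀ (by norm_num)]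
        linarith
      calc ((2 : ℝ) ^ (1 / 4 : ℝ) - (2 * h) ^ (1 / 4 : ℝ)) / (1 / 4) *
            (K2 * h ^ (α + 1 / 4) * w) ≤ 8 * (K2 * h ^ (α + 1 / 4) * w) :=
            mul_le_mul_of_nonneg_right h9 (by positivity)
        _ = 8 * K2 * h ^ (α + 1 / 4) * w := by ring
    rw [e1, e2, e3]
    linarith
  -- part (c)
  have hc : ∀ T : ℝ, 2 ≤ T → (∫ τ in (2 : ℝ)..T, τ ^ (-(1 / 2) : ℝ) * (φ τ - φ (τ + h))) ≤
      K1 * h ^ (α + 1 / 4) * w := by
    intro T hT
    have hφh : IntervalIntegrable (fun τ => φ (τ + h)) volume 2 T := by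
      apply AntitoneOn.intervalIntegrable
      intro x hx y hy hxy
      rw [uIcc_of_le hT] at hx hy
      exact hφa (x + h) (y + h) (by linarith [hx.1]) (by linarith)
    have h1 : (∫ τ in (2 : ℝ)..T, τ ^ (-(1 / 2) : ℝ) * (φ τ - φ (τ + h))) ≤
        ∫ τ in (2 : ℝ)..T, (φ τ - φ (τ + h)) := by
      refine intervalIntegral.integral_mono_on hT (hII _ hID 2 T (by norm_num) hT)
        ((hφI 2 T (by norm_num) hT).sub hφh) ?_
      intro τ hτ
      have h2 : 0 ≤ φ τ - φ (τ + h) :=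
        sub_nonneg.2 (hφa τ (τ + h) (by linarith [hτ.1]) (by linarith))
      calc τ ^ (-(1 / 2) : ℝ) * (φ τ - φ (τ + h)) ≤ 1 * (φ τ - φ (τ + h)) :=
            mul_le_mul_of_nonneg_right (ga3_le_one τ (by linarith [hτ.1])) h2
        _ = φ τ - φ (τ + h) := one_mul _
    rw [intervalIntegral.integral_sub (hφI 2 T (by norm_num) hT) hφh,
      intervalIntegral.integral_comp_add_right φ h] at h1
    have e1 : (∫ τ in (2 : ℝ)..T, φ τ) + (∫ τ in T..(T + h), φ τ) =
        (∫ τ in (2 : ℝ)..(2 + h), φ τ) + ∫ τ in (2 + h)..(T + h), φ τ := by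
      rw [intervalIntegral.integral_add_adjacent_intervals (hφI 2 T (by norm_num) hT)
        (hφI T (T + h) (by linarith) (by linarith)),
        intervalIntegral.integral_add_adjacent_intervals
        (hφI 2 (2 + h) (by norm_num) (by linarith))
        (hφI (2 + h) (T + h) (by linarith) (by linarith))]
    have h2 : 0 ≤ ∫ τ in T..(T + h), φ τ :=
      intervalIntegral.integral_nonneg (by linarith) fun u hu => hφ0 u (by linarith [hu.1])
    have h3 : (∫ τ in (2 : ℝ)..(2 + h), φ τ) ≤ ∫ _τ in (2 : ℝ)..(2 + h), K1 * w := by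
      refine intervalIntegral.integral_mono_on (by linarith)
        (hφI 2 (2 + h) (by norm_num) (by linarith)) intervalIntegrable_const ?_
      intro u hu
      exact hφK u (by linarith [hu.1])
    rw [intervalIntegral.integral_const, smul_eq_mul, add_sub_cancel_left] at h3
    have h4 : h * (K1 * w) ≤ K1 * h ^ (α + 1 / 4) * w := by
      calc h * (K1 * w) ≤ h ^ (α + 1 / 4) * (K1 * w) :=
            mul_le_mul_of_nonneg_right hp2 (by positivity)
        _ = K1 * h ^ (α + 1 / 4) * w := by ring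
    linarith
  -- the limit
  have hlim := intervalIntegral_tendsto_integral_Ioi 0 hID tendsto_id
  have hle : (∫ τ in Ioi (0 : ℝ), τ ^ (-(1 / 2) : ℝ) * (φ τ - φ (τ + h))) ≤
      (10 * K2 + 2 * K1) * h ^ (α + 1 / 4) * w := by
    refine le_of_tendsto hlim ?_
    filter_upwards [eventually_ge_atTop (2 : ℝ)] with T hT
    show (∫ τ in (0 : ℝ)..T, τ ^ (-(1 / 2) : ℝ) * (φ τ - φ (τ + h))) ≤ _
    have e1 := intervalIntegral.integral_add_adjacent_intervals (hII _ hID 0 h le_rfl hh.le)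
      (hII _ hID h 2 hh.le (by linarith))
    have e2 := intervalIntegral.integral_add_adjacent_intervals
      (hII _ hID 0 2 le_rfl (by norm_num)) (hII _ hID 2 T (by norm_num) hT)
    have h1 := hc T hT
    rw [← e2, ← e1]
    linarith
  have heq : A Q - A (Q + h) =
      κ * ∫ τ in Ioi (0 : ℝ), τ ^ (-(1 / 2) : ℝ) * (φ τ - φ (τ + h)) := by
    rw [hAb.eq Q hQ, hAb.eq (Q + h) (by linarith), ← mul_sub]
    congr 1
    have e1 : (∫ τ in Ioi (0 : ℝ), τ ^ (-(1 / 2) : ℝ) * Ψ (Q + h + τ)) =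
        ∫ τ in Ioi (0 : ℝ), τ ^ (-(1 / 2) : ℝ) * φ (τ + h) := by
      refine setIntegral_congr_fun measurableSet_Ioi fun τ _ => ?_
      show τ ^ (-(1 / 2) : ℝ) * Ψ (Q + h + τ) = τ ^ (-(1 / 2) : ℝ) * Ψ (Q + (τ + h))
      rw [show Q + h + τ = Q + (τ + h) by ring]
    rw [e1]
    have e2 := integral_sub hI1 hI2
    have e3 : (∫ τ in Ioi (0 : ℝ), τ ^ (-(1 / 2) : ℝ) * (φ τ - φ (τ + h))) =
        ∫ τ in Ioi (0 : ℝ), (τ ^ (-(1 / 2) : ℝ) * φ τ - τ ^ (-(1 / 2) : ℝ) * φ (τ + h)) := by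
      refine setIntegral_congr_fun measurableSet_Ioi fun τ _ => ?_
      show τ ^ (-(1 / 2) : ℝ) * (φ τ - φ (τ + h)) =
        τ ^ (-(1 / 2) : ℝ) * φ τ - τ ^ (-(1 / 2) : ℝ) * φ (τ + h)
      ring
    rw [e3]
    exact e2.symm
  rw [heq]
  calc κ * ∫ τ in Ioi (0 : ℝ), τ ^ (-(1 / 2) : ℝ) * (φ τ - φ (τ + h)) ≤
        κ * ((10 * K2 + 2 * K1) * h ^ (α + 1 / 4) * w) := mul_le_mul_of_nonneg_left hle hκ
    _ = κ * (10 * K2 + 2 * K1) * h ^ (α + 1 / 4) * w := by ring

end Pool.Agent.REV.H11
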