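import Pool.Agent.REV.StmtsG
import Pool.Agent.BPH.Fob
import Pool.Agent.BPH.Haa
import Pool.Agent.BPH.Sph

set_option autoImplicit false

/-! Row LLS of squad REV (MP_bbfd73_gt): the exchange formula with a constant which depends on the
dimension only. -/

open MeasureTheory Module Set Filter
open scoped RealInnerProductSpace Pointwise Topology ENNReal

namespace Pool.Agent.REV.H11

open Pool.Agent.BPH Pool.Agent.REV

section

variable {E : Type} [NormedAddCommGroup E] [InnerProductSpace ℝ E] [FiniteDimensional ℝ E]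
  [MeasurableSpace E] [BorelSpace E]

/-- the constant -/
noncomputable def NN (U : Submodule ℝ E) : ℝ :=
  mS U (fun u => mS (ℝ ∙ u)ᗮ (fun a => ‖U.starProjection a‖))

theorem mS_const (W : Submodule ℝ E) (r : ℝ) : mS W (fun _ => r) = r := by
  have : IsProbabilityMeasure (sph E) := sph_facts.prob
  unfold mS
  simp

theorem line_map (T : E ≃ₗᵢ[ℝ] E) (u : E) :
    (ℝ ∙ (T u))ᗮ = Submodule.map (T.toLinearEquiv : E →ₗ[ℝ] E) (ℝ ∙ u)ᗮ := by
  rw [Submodule.map_orthogonal_equiv, Submodule.map_span, Set.image_singleton]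
  rfl

theorem NN_map (T : E ≃ₗᵢ[ℝ] E) (U : Submodule ℝ E) :
    NN (Submodule.map (T.toLinearEquiv : E →ₗ[ℝ] E) U) = NN U := by
  unfold NN
  rw [← Fob18.mS_map sph_facts T U]
  congr 1
  funext u
  rw [line_map, ← Fob18.mS_map sph_facts T]
  congr 1
  funext a
  rw [Submodule.starProjection_map_apply]
  simp

theorem lem (rlw : RlwStmt) (gam : GamStmt) (lll : LllStmt) (llr : LlrStmt)
    (U : Submodule ℝ E) (hU : 2 ≤ finrank ℝ U) : 0 < NN U ∧
    ∀ Θ : E × E → ℝ, BM Θ →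
    mS U (fun u => mS (ℝ ∙ u)ᗮ (fun a => ‖U.starProjection a‖ * Θ (a, u))) =
      NN U * ∫ a, mS (U ⊓ (ℝ ∙ a)ᗮ) (fun u => Θ (a, u)) ∂sph E := by
  have hpr : IsProbabilityMeasure (sph E) := sph_facts.prob
  obtain ⟨lam, hlam⟩ := haa U
  let b := stdOrthonormalBasis ℝ U
  let y1 : U := b ⟨0, by omega⟩
  let y2 : U := b ⟨1, by omega⟩
  have h1 : ‖y1‖ = 1 := b.orthonormal.1 _
  have h2 : ‖y2‖ = 1 := b.orthonormal.1 _
  have h12 : ⟪y1, y2⟫ = 0 := b.orthonormal.2 (by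
    intro h
    have := congrArg Fin.val h
    simp at this)
  have h2' : ‖(y2 : E)‖ = 1 := h2
  obtain ⟨c, hc, hcF⟩ := rlw U hU (y2 : E) y2.2 h2'
  have main : ∀ Θ : E × E → ℝ, BM Θ →
      mS U (fun u => mS (ℝ ∙ u)ᗮ (fun a => ‖U.starProjection a‖ * Θ (a, u))) =
      c * ∫ a, mS (U ⊓ (ℝ ∙ a)ᗮ) (fun u => Θ (a, u)) ∂sph E := by
    intro Θ hΘ
    rw [lll U lam hlam y1 y2 h1 h2 h12 Θ hΘ, llr U lam hlam y1 y2 h1 h2 h12 Θ hΘ]
    exact hcF _ (gam U lam hlam y1 y2 Θ hΘ)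
  have hN : NN U = c := by
    have hBM : BM (fun _ : E × E => (1 : ℝ)) :=
      ⟨measurable_const, 1, fun _ => by simp⟩
    have h3 := main (fun _ => 1) hBM
    simp only [mul_one, mS_const] at h3
    unfold NN
    rw [h3]
    simp
  rw [hN]
  exact ⟨hc, main⟩

end

theorem lls (rlw : RlwStmt) (gam : GamStmt) (lll : LllStmt) (llr : LlrStmt) : LlsStmt := by
  intro E _ _ _ _ _ k hk
  by_cases hex : ∃ U0 : Submodule ℝ E, finrank ℝ U0 = k
  · obtain ⟨U0, hU0⟩ := hex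
    refine ⟨NN U0, (lem rlw gam lll llr U0 (by omega)).1, ?_⟩
    intro U hU Θ hΘ
    obtain ⟨T, hT⟩ := Fob18.exists_iso U0 U (by rw [hU0, hU])
    have h1 : NN U = NN U0 := by rw [← hT, NN_map]
    rw [(lem rlw gam lll llr U (by omega)).2 Θ hΘ, h1]
  · exact ⟨1, one_pos, fun U hU => absurd ⟨U, hU⟩ hex⟩

end Pool.Agent.REV.H11
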