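import Pool.Agent.REV.StmtsU3
import Pool.Agent.Helper65_REV.TAU
import Pool.Agent.Helper65_REV.GEN

/-! Squad REV, row SM3: strict comparison of RA and RB, `n ≥ 3` (adapted from the row SMB of helper75). -/

set_option autoImplicit false

namespace Pool.Agent.REV.H11

open Set Pool.Agent.REV

/-- squares of `ta` -/
theorem sm3_ta_sq {g c ρ : ℝ} (hD : 0 < 1 + (g - 1) * c ^ 2 * (1 - ρ ^ 2)) :
    ta g c ρ ^ 2 = ρ ^ 2 * c ^ 2 / (1 + (g - 1) * c ^ 2 * (1 - ρ ^ 2)) := by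
  unfold ta
  rw [div_pow, mul_pow, Real.sq_sqrt hD.le]

theorem sm3 (ksn : Kn3Stmt) (jel : Je3Stmt) (rpo : Rp3Stmt) : Sm3Stmt := by
  have cva := H65.cvag
  have cvb := H65.cvbg
  intro n b δ ε f hn hf hpos hb0 hb1 hU hδ0 hδ1 hε hst
  have hn4 : (3 : ℝ) ≤ n := by exact_mod_cast hn
  obtain ⟨tau1, -, tau3⟩ := H65.tau b hb0
  -- the bound of f
  obtain ⟨M, hM⟩ := isCompact_Icc.exists_bound_of_continuousOn hf
  have hM' : ∀ t ∈ Icc (0 : ℝ) 1, 0 < f t ∧ f t ≤ M := fun t ht =>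
    ⟨hpos t ht, (le_abs_self _).trans (hM t ht)⟩
  have hMpos : 0 < M := by
    have h := hM' 0 ⟨le_rfl, zero_le_one⟩
    linarith [h.1, h.2]
  -- r1, r2
  obtain ⟨r2, hr20, hr2n, hr2δ⟩ : ∃ r2 : ℝ, 0 < r2 ∧ ((n : ℝ) - 1) * r2 ^ 2 ≤ 1 ∧ r2 ≤ δ * b := by
    have hn1 : (0 : ℝ) < (n : ℝ) - 1 := by linarith
    refine ⟨min (1 / ((n : ℝ) - 1)) (δ * b), ?_, ?_, min_le_right _ _⟩
    · exact lt_min (by positivity) (by positivity)
    · have h0 : 0 ≤ min (1 / ((n : ℝ) - 1)) (δ * b) := le_min (by positivity) (by positivity)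
      have h1 := pow_le_pow_left₀ h0 (min_le_left (1 / ((n : ℝ) - 1)) (δ * b)) 2
      have h2 : ((n : ℝ) - 1) * (1 / ((n : ℝ) - 1)) ^ 2 = 1 / ((n : ℝ) - 1) := by
        field_simp
      have h3 : 1 / ((n : ℝ) - 1) ≤ 1 := by
        rw [div_le_one hn1]
        linarith
      calc ((n : ℝ) - 1) * (min (1 / ((n : ℝ) - 1)) (δ * b)) ^ 2
          ≤ ((n : ℝ) - 1) * (1 / ((n : ℝ) - 1)) ^ 2 := mul_le_mul_of_nonneg_left h1 hn1.le
        _ ≤ 1 := by rw [h2]; exact h3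
  have hr21 : r2 ≤ 1 := by nlinarith
  set r1 : ℝ := r2 / 2 with hr1
  have hr10 : 0 < r1 := by positivity
  have hr12 : r1 ≤ r2 := by rw [hr1]; linarith
  have hr11 : r1 < 1 := by rw [hr1]; linarith
  have hw : 0 < (1 - r1 ^ 2) ^ (((n : ℝ) - 2) / 2) := by
    apply Real.rpow_pos_of_pos
    nlinarith
  set e1 : ℝ := r1 * (1 - r1 ^ 2) ^ (((n : ℝ) - 2) / 2) * (ε * (3 / 4 * r2 ^ 2 * b)) with he1
  have he1pos : 0 < e1 := by positivity
  -- the main inequality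
  have main : ∀ c ∈ Icc (0 : ℝ) 1,
      (1 + (b - 1) * c ^ 2) * (((n : ℝ) - 2) * RB n f c) + e1 * c ^ 2 ≤ RA n f c := by
    intro c hc
    have hc0 := hc.1
    have hc1 := hc.2
    have hcsq : c ^ 2 ≤ 1 := by nlinarith
    have hcsq0 : 0 ≤ c ^ 2 := sq_nonneg c
    have hq0 : b ≤ 1 + (b - 1) * c ^ 2 := by nlinarith
    have hq1 : 1 + (b - 1) * c ^ 2 ≤ 1 := by nlinarith
    have hqpos : 0 < 1 + (b - 1) * c ^ 2 := by linarith
    have hanti : AntitoneOn (fun ρ => El n b f (ta b c ρ)) (Icc 0 1) := by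
      intro ρ hρ ρ' hρ' hle
      exact hU (tau1 c ρ hc0 hc1 hρ.1 hρ.2).2.2 (tau1 c ρ' hc0 hc1 hρ'.1 hρ'.2).2.2
        (tau3 c ρ ρ' hc0 hc1 hρ.1 hle hρ'.2)
    have hk := ksn n _ hn hanti r1 r2 hr10.le hr12 hr2n
    rw [(jel n b c f hn hb0 hc0 hc1 hf).2] at hk
    -- the values of ta
    have hDb : ∀ ρ : ℝ, 0 ≤ ρ → ρ ≤ 1 → b ≤ 1 + (b - 1) * c ^ 2 * (1 - ρ ^ 2) ∧
        1 + (b - 1) * c ^ 2 * (1 - ρ ^ 2) ≤ 1 := by
      intro ρ h0 h1
      have h2 : 0 ≤ 1 - ρ ^ 2 := by nlinarith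
      have h3 : 0 ≤ c ^ 2 * (1 - ρ ^ 2) := mul_nonneg hcsq0 h2
      have h4 : c ^ 2 * (1 - ρ ^ 2) ≤ 1 := by nlinarith [sq_nonneg ρ]
      constructor
      · nlinarith
      · nlinarith
    have ht1 := tau1 c r1 hc0 hc1 hr10.le hr11.le
    have ht2 := tau1 c r2 hc0 hc1 hr20.le hr21
    have hle12 := tau3 c r1 r2 hc0 hc1 hr10.le hr12 hr21
    have hδ2 : ta b c r2 ≤ δ := by
      unfold ta
      have h1 := (hDb r2 hr20.le hr21).1
      have h2 : b ≤ Real.sqrt (1 + (b - 1) * c ^ 2 * (1 - r2 ^ 2)) := by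
        apply Real.le_sqrt_of_sq_le
        nlinarith
      rw [div_le_iff₀ (by linarith)]
      calc r2 * c ≤ r2 * 1 := mul_le_mul_of_nonneg_left hc1 hr20.le
        _ ≤ δ * b := by rw [mul_one]; exact hr2δ
        _ ≤ δ * Real.sqrt (1 + (b - 1) * c ^ 2 * (1 - r2 ^ 2)) :=
            mul_le_mul_of_nonneg_left h2 hδ0.le
    have hs := hst _ _ ht1.2.2.1 hle12 hδ2
    have hsq : 3 / 4 * r2 ^ 2 * b * c ^ 2 ≤ ta b c r2 ^ 2 - ta b c r1 ^ 2 := by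
      rw [sm3_ta_sq ht2.1, sm3_ta_sq ht1.1]
      obtain ⟨hD1b, hD11⟩ := hDb r1 hr10.le hr11.le
      obtain ⟨hD2b, hD21⟩ := hDb r2 hr20.le hr21
      have hD1 := ht1.1
      have hD2 := ht2.1
      have hid : r2 ^ 2 * c ^ 2 / (1 + (b - 1) * c ^ 2 * (1 - r2 ^ 2)) -
          r1 ^ 2 * c ^ 2 / (1 + (b - 1) * c ^ 2 * (1 - r1 ^ 2)) =
          c ^ 2 * (r2 ^ 2 - r1 ^ 2) * (1 + (b - 1) * c ^ 2) /
            ((1 + (b - 1) * c ^ 2 * (1 - r1 ^ 2)) * (1 + (b - 1) * c ^ 2 * (1 - r2 ^ 2))) := by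
        rw [div_sub_div _ _ hD2.ne' hD1.ne', div_eq_div_iff (mul_ne_zero hD2.ne' hD1.ne')
          (mul_ne_zero hD1.ne' hD2.ne')]
        ring
      rw [hid, le_div_iff₀ (mul_pos hD1 hD2)]
      have hprod : (1 + (b - 1) * c ^ 2 * (1 - r1 ^ 2)) * (1 + (b - 1) * c ^ 2 * (1 - r2 ^ 2)) ≤ 1 :=
        mul_le_one₀ hD11 hD2.le hD21
      have h34 : r2 ^ 2 - r1 ^ 2 = 3 / 4 * r2 ^ 2 := by rw [hr1]; ring
      rw [h34]
      calc 3 / 4 * r2 ^ 2 * b * c ^ 2 * ((1 + (b - 1) * c ^ 2 * (1 - r1 ^ 2)) *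
            (1 + (b - 1) * c ^ 2 * (1 - r2 ^ 2))) ≤ 3 / 4 * r2 ^ 2 * b * c ^ 2 * 1 :=
            mul_le_mul_of_nonneg_left hprod (by positivity)
        _ = c ^ 2 * (3 / 4 * r2 ^ 2) * b := by ring
        _ ≤ c ^ 2 * (3 / 4 * r2 ^ 2) * (1 + (b - 1) * c ^ 2) :=
            mul_le_mul_of_nonneg_left hq0 (by positivity)
    have hgam : ε * (3 / 4 * r2 ^ 2 * b) * c ^ 2 ≤ El n b f (ta b c r1) - El n b f (ta b c r2) := by
      refine le_trans ?_ hs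
      have := mul_le_mul_of_nonneg_left hsq hε.le
      linarith
    have hk2 : e1 * c ^ 2 ≤ RA' n b f c - ((n : ℝ) - 2) * RB' n b f c := by
      refine le_trans ?_ hk
      rw [he1]
      have := mul_le_mul_of_nonneg_left hgam (mul_nonneg hr10.le hw.le)
      linarith
    -- back to RA, RB
    rw [cva n b c f hqpos, cvb n b c f hqpos]
    set q : ℝ := 1 + (b - 1) * c ^ 2 with hq
    have hqq : q * q ^ (-(3 / 2) : ℝ) = q ^ (-(1 / 2) : ℝ) := by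
      have h1 : q * q ^ (-(3 / 2) : ℝ) = q ^ (1 : ℝ) * q ^ (-(3 / 2) : ℝ) := by
        rw [Real.rpow_one]
      rw [h1, ← Real.rpow_add hqpos]
      norm_num
    have hge1 : 1 ≤ q ^ (-(1 / 2) : ℝ) :=
      Real.one_le_rpow_of_pos_of_le_one_of_nonpos hqpos hq1 (by norm_num)
    have h1 : q * (((n : ℝ) - 2) * (q ^ (-(3 / 2) : ℝ) * RB' n b f c)) =
        q ^ (-(1 / 2) : ℝ) * (((n : ℝ) - 2) * RB' n b f c) := by
      rw [← hqq]
      ring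
    rw [h1]
    have h2 : e1 * c ^ 2 ≤ q ^ (-(1 / 2) : ℝ) * (e1 * c ^ 2) := by
      have := mul_le_mul_of_nonneg_right hge1 (mul_nonneg he1pos.le hcsq0)
      linarith
    have h3 := mul_le_mul_of_nonneg_left hk2 (by linarith : 0 ≤ q ^ (-(1 / 2) : ℝ))
    linarith
  -- the choice of b1
  have hn2 : (0 : ℝ) < (n : ℝ) - 2 := by linarith
  refine ⟨b + min (e1 / (((n : ℝ) - 2) * M)) ((1 - b) / 2), ?_, ?_, ?_⟩
  · have : 0 < min (e1 / (((n : ℝ) - 2) * M)) ((1 - b) / 2) :=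
      lt_min (by positivity) (by linarith)
    linarith
  · have := min_le_right (e1 / (((n : ℝ) - 2) * M)) ((1 - b) / 2)
    linarith
  · intro c hc
    obtain ⟨-, hRB0, -, hRBM⟩ := rpo n f M hn hf hM' c hc
    have h1 := min_le_left (e1 / (((n : ℝ) - 2) * M)) ((1 - b) / 2)
    have h0 : 0 ≤ min (e1 / (((n : ℝ) - 2) * M)) ((1 - b) / 2) :=
      le_min (by positivity) (by linarith)
    have h2 : min (e1 / (((n : ℝ) - 2) * M)) ((1 - b) / 2) * (((n : ℝ) - 2) * RB n f c) ≤ e1 := by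
      calc min (e1 / (((n : ℝ) - 2) * M)) ((1 - b) / 2) * (((n : ℝ) - 2) * RB n f c)
          ≤ e1 / (((n : ℝ) - 2) * M) * (((n : ℝ) - 2) * M) :=
            mul_le_mul h1 (mul_le_mul_of_nonneg_left hRBM hn2.le)
              (mul_nonneg hn2.le hRB0.le) (by positivity)
        _ = e1 := by
            field_simp
    have h3 := mul_le_mul_of_nonneg_right h2 (sq_nonneg c)
    have h4 := main c hc
    nlinarith

end Pool.Agent.REV.H11
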